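import Pool.Agent.Q35.ST.Opn

/-!
# The closure of the rational points of smooth hypersurfaces of multidegree (2, ..., 2) is open

`K` is a field of characteristic zero, for example a number field, and
`X = {F = 0} ⊆ ℙ^{n₁} × … × ℙ^{n_r}`, all `n_l ≥ 2`, is a smooth hypersurface of multidegree
`(2, …, 2)`: a Fano variety, hence rationally connected. The main case is that of products of
projective planes, where `X` is a conic bundle in `r` ways; for `r = 2` it is a Verra threefold.

Let `v` run over a finite set of places (dense embeddings `σ v : K → L v` in complete fields, such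
that `K` is dense in the product of the `L v`).

**Theorem.** (1) The closure of `X(K)` in the product of the `X(L v)` is a neighbourhood of each of
its points `T = (T_v)` such that no `T_v` is special. Here a point `x` is called special if there is
a nonempty set `S` of factors such that over `x_S` all partial derivatives of `F` in the directions
of the factors in `S` are constant multiples of `F` (so they vanish on the whole fibre of `X` over
`x_S`).

(2) The special points of `X(L v)` lie in the fibres of `X` over finitely many points `p_S` (with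
nonempty sets `S` of factors), hence in a closed subset of codimension at least two.

(In the formal statement we work with the multihomogeneous coordinates, that is with the cone over
`X`.)

Idea of the proof. Through a point `y` of `X` and a point `w` of the factor `l` there is a line in
this factor which meets `X` in a second point `m_l(y, w)`. These moves are compatible with limits, so
they preserve the closure `W` of `X(K)`; with some care they can be applied at one place at a time.
At one place, let `V(P)` be the Zariski closure of the set of the points which can be reached from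
`T_v` by a fixed general sequence of pairs of moves, for a sequence with maximal `V(P)`. Then
`T_v ∈ V(P)`, since one can go back, and by the maximality `V(P)` is preserved by the vector fields
tangent to `X` in the directions of the factors. By the classification of such subvarieties and
since `T_v` is not special we get `V(P) = X`. So the moves from `T_v` fill a neighbourhood of some
point of `X(L v)`, and going back with fixed parameters we fill a neighbourhood of `T_v`.
-/

set_option autoImplicit false

namespace Pool.Agent.Results.MP_12adaf_nt.MultidegreeTwoClosure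

open MvPolynomial

/-- The multihomogeneous coordinates of `ℙ^{n₁} × … × ℙ^{n_r}`. -/
abbrev Vars {r : ℕ} (n : Fin r → ℕ) : Type := (l : Fin r) × Fin (n l + 1)

/-- `F` is a form of degree two in the coordinates of each factor. -/
def MultiQuadratic {r : ℕ} {n : Fin r → ℕ} {K : Type} [Field K]
    (F : MvPolynomial (Vars n) K) : Prop :=
  ∀ m ∈ F.support, ∀ l, ∑ i, m ⟨l, i⟩ = 2

/-- The coordinates of no factor are all zero. -/
def Proper {r : ℕ} {n : Fin r → ℕ} {K : Type} [Zero K] (z : Vars n → K) : Prop :=
  ∀ l, ∃ i, z ⟨l, i⟩ ≠ 0

/-- The hypersurface `F = 0` is smooth. -/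
def Smooth {r : ℕ} {n : Fin r → ℕ} {K : Type} [Field K] (F : MvPolynomial (Vars n) K) : Prop :=
  ∀ z : Vars n → AlgebraicClosure K, Proper z → aeval z F = 0 → ∃ s, aeval z (pderiv s F) ≠ 0

/-- The closure of the set of the `K`-points in the product of the sets of the `L v`-points. -/
def Closure {r : ℕ} {n : Fin r → ℕ} {K : Type} [Field K] (F : MvPolynomial (Vars n) K) {ι : Type}
    {L : ι → Type} [∀ v, NontriviallyNormedField (L v)] (σ : ∀ v, K →+* L v) :
    Set (∀ v, Vars n → L v) :=
  closure {S | ∃ y : Vars n → K, Proper y ∧ eval y F = 0 ∧ S = fun v s => σ v (y s)}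

/-- The point `x` is special with respect to the set `S` of factors, which is not empty: on the set
of all points with the same coordinates as `x` in the factors in `S` all partial derivatives of `F`
in the directions of the factors in `S` are constant multiples of `F`. -/
def SpecialIn {r : ℕ} {n : Fin r → ℕ} {K : Type} [Field K] {L : Type} [Field L] (σ : K →+* L)
    (F : MvPolynomial (Vars n) K) (S : Finset (Fin r)) (x : Vars n → L) : Prop :=
  S.Nonempty ∧ ∀ s : Vars n, s.1 ∈ S → ∃ c : L, ∀ y : Vars n → L,
    (∀ t : Vars n, t.1 ∈ S → y t = x t) → eval₂ σ y (pderiv s F) = c * eval₂ σ y F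

/-- **The closure of the rational points of smooth hypersurfaces of multidegree `(2, …, 2)` is
open at all points which are not special.** -/
theorem result (K : Type) [Field K] [CharZero K]
    -- a finite set of places
    (ι : Type) [Fintype ι] [Nonempty ι] (L : ι → Type) [∀ v, NontriviallyNormedField (L v)]
    [∀ v, CompleteSpace (L v)] (σ : ∀ v, K →+* L v)
    (hσ : DenseRange (fun a : K => fun v => σ v a))
    -- a smooth hypersurface of multidegree (2, …, 2)
    (r : ℕ) (n : Fin r → ℕ) (hn : ∀ l, 2 ≤ n l) (F : MvPolynomial (Vars n) K)
    (hF : MultiQuadratic F) (hsm : Smooth F) :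
    -- (1) the closure of the set of the rational points is open outside of the special points
    (∀ T ∈ Closure F σ, (∀ v, Proper (T v) ∧ ∀ S, ¬ SpecialIn (σ v) F S (T v)) →
      ∃ U ∈ nhds T, ∀ S ∈ U, (∀ v, eval₂ (σ v) (S v) F = 0) → S ∈ Closure F σ) ∧
    -- (2) the special points lie over finitely many points in the special directions
    (∀ v, ∃ E : Finset (Finset (Fin r) × (Vars n → L v)), ∀ (S : Finset (Fin r)) (x : Vars n → L v),
      Proper x → eval₂ (σ v) x F = 0 → SpecialIn (σ v) F S x →
        ∃ p, (S, p) ∈ E ∧ Proper p ∧ eval₂ (σ v) p F = 0 ∧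
          ∀ l ∈ S, ∃ c : L v, ∀ i, x ⟨l, i⟩ = c * p ⟨l, i⟩) := by
  open Pool.Agent.Q35.ST in
  have hF' : MH Set.univ (fun _ => 2) F := fun m hm l _ => hF m hm l
  have hsm' : Smth (map (algebraMap K (AlgebraicClosure K)) F) := by
    intro z hz hzF
    rw [eval_map] at hzF
    obtain ⟨s, hs⟩ := hsm z (fun l => hz l (Set.mem_univ _)) hzF
    exact ⟨s, by rw [pderiv_map, eval_map]; exact hs⟩
  have hspec : ∀ v (S : Finset (Fin r)) (x : Vars n → L v),
      SpecialIn (σ v) F S x ↔ SpecIn (map (σ v) F) S x := by
    intro v S x
    unfold SpecialIn SpecIn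
    simp only [pderiv_map, eval_map]
  have hCZ : ∀ v, CharZero (L v) := fun v => charZero_of_injective_ringHom (σ v).injective
  refine ⟨?_, ?_⟩
  · intro T hT hTs
    have hopen : IsOpen {S : ∀ v, Vars n → L v | ∀ v, Proper (S v)} := by
      have : {S : ∀ v, Vars n → L v | ∀ v, Proper (S v)} =
          ⋂ v, ⋂ l, ⋃ i, {S | S v ⟨l, i⟩ ≠ 0} := by
        ext z; simp [Proper]
      rw [this]
      refine isOpen_iInter_of_finite (fun v => isOpen_iInter_of_finite (fun l =>
        isOpen_iUnion (fun i => ?_)))
      exact isOpen_ne_fun ((continuous_apply (⟨l, i⟩ : Vars n)).comp (continuous_apply v))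
        continuous_const
    have hprop : ∀ S : ∀ v, Vars n → L v, (∀ v, Proper (S v)) →
        S ∈ closure {S : ∀ v, Vars n → L v | ∃ y : Vars n → K, eval y F = 0 ∧
          S = fun v s => σ v (y s)} → S ∈ Closure F σ := by
      intro S hS hScl
      unfold Closure
      rw [mem_closure_iff_nhds] at hScl ⊢
      intro U hU
      obtain ⟨S', hS'U, y, hy, rfl⟩ := hScl (U ∩ {S | ∀ v, Proper (S v)})
        (Filter.inter_mem hU (hopen.mem_nhds hS))
      refine ⟨_, hS'U.1, y, ?_, hy, rfl⟩
      obtain ⟨v⟩ := (inferInstance : Nonempty ι)
      intro l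
      obtain ⟨i, hi⟩ := hS'U.2 v l
      exact ⟨i, fun h => hi (by show σ v (y ⟨l, i⟩) = 0; rw [h, map_zero])⟩
    have h := open_closure hσ hF' hn hsm' T (by
      refine closure_mono ?_ hT
      rintro S ⟨y, -, hy, rfl⟩
      exact ⟨y, hy, rfl⟩) (fun v => ⟨fun l _ => (hTs v).1 l, fun S hS => (hTs v).2 S ((hspec v S _).2 hS)⟩)
    refine ⟨_, Filter.inter_mem h (hopen.mem_nhds (fun v => (hTs v).1)), fun S hS hSF => ?_⟩
    exact hprop S hS.2 (hS.1 (fun v => by rw [eval_map]; exact hSF v))
  · intro v
    obtain ⟨E, hE⟩ := spec_finite (G := map (σ v) F) sMIN sU (hF'.map (σ v)) (fun _ => two_ne_zero)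
      hn (by rw [map_map]; exact smth_ext hsm' _)
    refine ⟨E, fun S x hx hxF hS => ?_⟩
    obtain ⟨p, h1, h2, h3, h4⟩ := hE S x (fun l _ => hx l) (by rw [eval_map]; exact hxF)
      ((hspec v S x).1 hS)
    exact ⟨p, h1, fun l => h2 l (Set.mem_univ _), by rw [← eval_map]; exact h3, h4⟩

end Pool.Agent.Results.MP_12adaf_nt.MultidegreeTwoClosure
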