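import Pool.Agent.Q138.PS.TT
import Pool.Agent.Results.MP_12adaf_nt.ShiftedPolynomials

/-!
# Weak approximation for almost all of the varieties `yᵢ² - aᵢ zᵢ² = cᵢ (f(t₁, ..., t_m) + k)`, `k = ± ⌊β P(n)⌋`

Let `q ≥ 2`. Outside a set of real numbers of Hausdorff dimension at most `q / (q + 1 / (q 2 ^ (q - 1)))` (that is
`8 / 9` for `q = 2`) every `β > 0` has the following property, for all integral polynomials `f` of degree at least two in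
any number `m` of variables and all nonzero integers `aᵢ`, `cᵢ`, `i < r`. The varieties
`V_k : yᵢ² - aᵢ zᵢ² = cᵢ (f(t) + k) ≠ 0` are smooth and geometrically rational of dimension `m + r`. For ALL integral
polynomials `P` of degree `q` with positive leading coefficient and coefficients of size at most `H ^ η`, and for all but
`H / (log H) ^ U` of the `n ≤ H`, weak approximation at the finite places holds for `V_k`, `k = ± ⌊β P(n)⌋`, to a fixed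
precision at the primes of a finite set which contains the bad ones, under a condition at the real place; and without any
condition if the degree of `f` is odd and all `cᵢ = 1`.
-/

set_option autoImplicit false

namespace Pool.Agent.Results.MP_12adaf_nt.ShiftsByRealMultiples

open Finset Filter Topology MeasureTheory
open Pool.Agent.Q138.PS

instance (p : Nat.Primes) : Fact (p : ℕ).Prime := ⟨p.2⟩

section V

variable {m r : ℕ}

/-- the point `(t, y, z)` with coordinates in the field `F` lies on `V_k` -/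
def OnV (f : MvPolynomial (Fin m) ℤ) (a c : Fin r → ℤ) (k : ℤ) {F : Type} [Field F] (t : Fin m → F) (y z : Fin r → F) : Prop :=
  MvPolynomial.aeval t f + (k : F) ≠ 0 ∧
    ∀ i, y i ^ 2 - (a i : F) * z i ^ 2 = (c i : F) * (MvPolynomial.aeval t f + (k : F))

/-- weak approximation of level `N` at the primes of `T`: for all families of `p`-adic points `(t, y, z)` of `V_k`, `p` in `T`,
with coordinates of absolute value at most `p ^ N` and `|f(t) + k| ≥ p ^ (-N)` there is a rational point of `V_k` whose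
coordinates are at the distance at most `p ^ (-N)` from those of the given point, for all `p` in `T`. For `T = ∅` this says
that `V_k` has a rational point. -/
def WA (f : MvPolynomial (Fin m) ℤ) (a c : Fin r → ℤ) (T : Finset Nat.Primes) (N : ℕ) (k : ℤ) : Prop :=
  ∀ (t : (p : Nat.Primes) → Fin m → ℚ_[(p : ℕ)]) (y z : (p : Nat.Primes) → Fin r → ℚ_[(p : ℕ)]),
    (∀ p ∈ T, OnV f a c k (t p) (y p) (z p) ∧ (∀ j, ‖t p j‖ ≤ ((p : ℕ) : ℝ) ^ N) ∧ (∀ i, ‖y p i‖ ≤ ((p : ℕ) : ℝ) ^ N) ∧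
      (∀ i, ‖z p i‖ ≤ ((p : ℕ) : ℝ) ^ N) ∧ (((p : ℕ) : ℝ) ^ N)⁻¹ ≤ ‖MvPolynomial.aeval (t p) f + (k : ℚ_[(p : ℕ)])‖) →
    ∃ (s : Fin m → ℚ) (Y Z : Fin r → ℚ), OnV f a c k s Y Z ∧
      ∀ p ∈ T, (∀ j, ‖(s j : ℚ_[(p : ℕ)]) - t p j‖ ≤ (((p : ℕ) : ℝ) ^ N)⁻¹) ∧
      ∀ i, ‖(Y i : ℚ_[(p : ℕ)]) - y p i‖ ≤ (((p : ℕ) : ℝ) ^ N)⁻¹ ∧ ‖(Z i : ℚ_[(p : ℕ)]) - z p i‖ ≤ (((p : ℕ) : ℝ) ^ N)⁻¹

/-- the condition at the real place: there is a sign `s` such that `s cᵢ > 0` whenever `aᵢ < 0` and such that `s k > 0` or the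
leading form of `f` takes a value of the sign `s` at an integral vector -/
def RealCond (f : MvPolynomial (Fin m) ℤ) (a c : Fin r → ℤ) (k : ℤ) : Prop :=
  ∃ s : ℤ, (s = 1 ∨ s = -1) ∧ (∀ i, a i < 0 → 0 < s * c i) ∧
    (0 < s * k ∨ ∃ v : Fin m → ℤ, 0 < s * MvPolynomial.eval v (MvPolynomial.homogeneousComponent f.totalDegree f))

end V

open Classical in
/-- the number of the pairs of an integer `1 ≤ n ≤ H` and a sign `s` for which `k = s ⌊β P(n)⌋` is not zero and has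
the property `Z` -/
noncomputable def count (β : ℝ) (P : Polynomial ℤ) (H : ℕ) (Z : ℤ → Prop) : ℕ :=
  ((Icc 1 H ×ˢ ({1, -1} : Finset ℤ)).filter fun x : ℕ × ℤ =>
    x.2 * (⌊β * ((P.eval (x.1 : ℤ) : ℤ) : ℝ)⌋₊ : ℤ) ≠ 0 ∧
      Z (x.2 * (⌊β * ((P.eval (x.1 : ℤ) : ℤ) : ℝ)⌋₊ : ℤ))).card

/-- the property `Z` holds for at most `H / (log H) ^ U` of the numbers `± ⌊β P(n)⌋`, `n ≤ H`, for every `U` and all large
`H`, uniformly in the polynomials `P` of degree `q` with positive leading coefficient and coefficients of size at most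
`H ^ η` -/
def Few (q : ℕ) (β : ℝ) (Z : ℤ → Prop) : Prop :=
  ∃ η : ℝ, 0 < η ∧ ∀ U : ℕ, ∀ᶠ H : ℕ in atTop, ∀ P : Polynomial ℤ, P.natDegree = q → 0 < P.leadingCoeff →
    (∀ j, |((P.coeff j : ℤ) : ℝ)| ≤ (H : ℝ) ^ η) → (count β P H Z : ℝ) ≤ H / Real.log H ^ U

/-- the index set -/
abbrev Idx : Type := Σ (m r : ℕ), MvPolynomial (Fin m) ℤ × (Fin r → ℤ) × (Fin r → ℤ) × Finset Nat.Primes × ℕ × Bool

/-- the exceptional sets -/
def bad (i : Idx) (k : ℤ) : Prop :=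
  k ≠ 0 ∧ if i.2.2.2.2.2.2.2 then ¬ WA i.2.2.1 i.2.2.2.1 i.2.2.2.2.1 i.2.2.2.2.2.1 i.2.2.2.2.2.2.1 k
    else ¬ (RealCond i.2.2.1 i.2.2.2.1 i.2.2.2.2.1 k → WA i.2.2.1 i.2.2.2.1 i.2.2.2.2.1 i.2.2.2.2.2.1 i.2.2.2.2.2.2.1 k)

theorem countable_pol (n : ℕ) : Countable (MvPolynomial (Fin n) ℤ) :=
  Cardinal.mk_le_aleph0_iff.1 (by
    refine (MvPolynomial.cardinalMk_le_max (σ := Fin n) (R := ℤ)).trans ?_
    simp)

theorem countable_idx : Countable Idx := by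
  have := fun n => countable_pol n
  infer_instance

theorem bound_of (Z : ℤ → Prop) [DecidablePred Z] (U : ℕ)
    (h : ∃ X₀ : ℕ, ∀ X : ℕ, X₀ ≤ X → (#{k ∈ Icc (-(X : ℤ)) X | Z k} : ℝ) ≤ X / Real.log X ^ U) :
    ∃ C : ℝ, ∀ Y : ℕ, 3 ≤ Y → ({d : ℤ | d.natAbs ≤ Y ∧ (d ≠ 0 ∧ Z d)}.ncard : ℝ) ≤ C * Y * (Real.log Y) ^ (-(U : ℝ)) := by
  obtain ⟨X₀, hX⟩ := h
  refine ⟨1 + 3 * (Real.log (X₀ + 3)) ^ U, fun Y hY => ?_⟩
  have hY3 : (3 : ℝ) ≤ Y := by exact_mod_cast hY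
  have hlog : 0 < Real.log Y := Real.log_pos (by linarith)
  rw [Real.rpow_neg hlog.le, Real.rpow_natCast]
  have hL0 : 0 ≤ Real.log (X₀ + 3) := Real.log_nonneg (by
    have : (0 : ℝ) ≤ X₀ := Nat.cast_nonneg _
    linarith)
  rcases le_or_gt X₀ Y with h | h
  · have h1 := hX Y h
    have h2 : ({d : ℤ | d.natAbs ≤ Y ∧ (d ≠ 0 ∧ Z d)}.ncard : ℝ) ≤ (#{k ∈ Icc (-(Y : ℤ)) Y | Z k} : ℝ) := by
      rw [← Set.ncard_coe_finset]
      have : {d : ℤ | d.natAbs ≤ Y ∧ (d ≠ 0 ∧ Z d)} ⊆ (({k ∈ Icc (-(Y : ℤ)) Y | Z k} : Finset ℤ) : Set ℤ) := by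
        rintro d ⟨g1, g2, g3⟩
        rw [mem_coe, mem_filter, mem_Icc]
        exact ⟨by omega, g3⟩
      exact_mod_cast Set.ncard_le_ncard this (finite_toSet _)
    refine h2.trans (h1.trans ?_)
    rw [div_eq_mul_inv]
    have : (0 : ℝ) ≤ 3 * (Real.log (X₀ + 3)) ^ U * Y * (Real.log Y ^ U)⁻¹ := by positivity
    linarith
  · have h1 := ncard_triv (fun d => d ≠ 0 ∧ Z d) Y
    refine h1.trans ?_
    have h2 : Real.log Y ≤ Real.log (X₀ + 3) := Real.log_le_log (by linarith) (by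
      have : (Y : ℝ) ≤ X₀ := by exact_mod_cast h.le
      linarith)
    have h3 : Real.log Y ^ U ≤ Real.log (X₀ + 3) ^ U := by gcongr
    have h4 : (1 : ℝ) ≤ Real.log (X₀ + 3) ^ U * (Real.log Y ^ U)⁻¹ := by
      rw [← div_eq_mul_inv, le_div_iff₀ (by positivity)]
      linarith
    calc (2 : ℝ) * Y + 1 ≤ 3 * Y * 1 := by linarith
      _ ≤ 3 * Y * (Real.log (X₀ + 3) ^ U * (Real.log Y ^ U)⁻¹) := by gcongr
      _ ≤ (1 + 3 * (Real.log (X₀ + 3)) ^ U) * Y * (Real.log Y ^ U)⁻¹ := by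
          have : (0 : ℝ) ≤ Y * (Real.log Y ^ U)⁻¹ := by positivity
          nlinarith

theorem few_of {q : ℕ} {β : ℝ} (Z : ℤ → Prop) (i : Idx) (hZ : ∀ d, d ≠ 0 → (Z d ↔ bad i d))
    (hT : ∃ η : ℝ, 0 < η ∧
      ∀ δ C : ℝ, 0 < δ → (∀ Y : ℕ, 3 ≤ Y → ({d : ℤ | d.natAbs ≤ Y ∧ bad i d}.ncard : ℝ) ≤ C * Y * (Real.log Y) ^ (-δ)) →
      ∀ᶠ N : ℕ in atTop, ∀ P : Polynomial ℤ, P.natDegree = q →
      0 < P.leadingCoeff → (∀ j, |((P.coeff j : ℤ) : ℝ)| ≤ (N : ℝ) ^ η) →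
      (cnS (bad i) β P N : ℝ) ≤ (5 * (|C| * 2 ^ δ) + 1) * N * (Real.log N) ^ (-δ))
    (hC : ∀ U : ℕ, ∃ C : ℝ, ∀ Y : ℕ, 3 ≤ Y → ({d : ℤ | d.natAbs ≤ Y ∧ (d ≠ 0 ∧ Z d)}.ncard : ℝ) ≤
      C * Y * (Real.log Y) ^ (-(U : ℝ))) : Few q β Z := by
  classical
  obtain ⟨η, hη, h1⟩ := hT
  refine ⟨η, hη, fun U => ?_⟩
  obtain ⟨C, hC⟩ := hC (U + 1)
  have h2 := h1 ((U + 1 : ℕ) : ℝ) C (by positivity) (fun Y hY => by
    refine le_trans (le_of_eq ?_) (hC Y hY)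
    congr 2
    ext d
    constructor
    · rintro ⟨g1, g2⟩
      exact ⟨g1, g2.1, (hZ d g2.1).2 g2⟩
    · rintro ⟨g1, g2, g3⟩
      exact ⟨g1, (hZ d g2).1 g3⟩)
  have hl := (Real.tendsto_log_atTop.comp tendsto_natCast_atTop_atTop).eventually_ge_atTop
    (5 * (|C| * 2 ^ ((U + 1 : ℕ) : ℝ)) + 1)
  filter_upwards [h2, hl, eventually_ge_atTop 3] with N hN hl hN3
  intro P g2 g3 g4
  have hN3r : (3 : ℝ) ≤ N := by exact_mod_cast hN3
  have hlog : 0 < Real.log N := Real.log_pos (by linarith)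
  have h5 : count β P N Z ≤ cnS (bad i) β P N := by
    unfold count cnS
    refine card_le_card fun x hx => ?_
    rw [mem_filter] at hx ⊢
    exact ⟨hx.1, (hZ _ hx.2.1).1 hx.2.2⟩
  have h6 : (count β P N Z : ℝ) ≤ cnS (bad i) β P N := by exact_mod_cast h5
  refine h6.trans ((hN P g2 g3 g4).trans ?_)
  have hl' : 5 * (|C| * 2 ^ ((U + 1 : ℕ) : ℝ)) + 1 ≤ Real.log N := hl
  set K : ℝ := 5 * (|C| * 2 ^ ((U + 1 : ℕ) : ℝ)) + 1 with hK
  rw [Real.rpow_neg hlog.le, Real.rpow_natCast, div_eq_mul_inv]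
  calc K * N * (Real.log N ^ (U + 1))⁻¹ ≤
      Real.log N * N * (Real.log N ^ (U + 1))⁻¹ := by gcongr
    _ = N * (Real.log N ^ U)⁻¹ := by
        rw [pow_succ]
        field_simp

theorem result (q : ℕ) (hq : 2 ≤ q) :
    ∃ E : Set ℝ, dimH E ≤ ENNReal.ofReal ((q : ℝ) / (q + 1 / (q * 2 ^ (q - 1)))) ∧ ∀ β : ℝ, 0 < β → β ∉ E →
      ∀ (m r : ℕ) (f : MvPolynomial (Fin m) ℤ), 2 ≤ f.totalDegree → ∀ a c : Fin r → ℤ, (∀ i, a i ≠ 0) →
      (∀ i, c i ≠ 0) →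
      (∃ T₀ : Finset Nat.Primes, ∀ T : Finset Nat.Primes, T₀ ⊆ T → ∀ N : ℕ,
        Few q β (fun k => ¬ (RealCond f a c k → WA f a c T N k))) ∧
      (Odd f.totalDegree → (∀ i, c i = 1) → ∀ (T : Finset Nat.Primes) (N : ℕ),
        Few q β (fun k => ¬ WA f a c T N k)) := by
  classical
  have := countable_idx
  obtain ⟨E, hE, hT⟩ := exc_transfer q hq bad (fun i h => h.1 rfl)
  refine ⟨E, hE, fun β hβ hβE m r f hf a c ha hc => ?_⟩
  obtain ⟨h1, h2⟩ := MP_12adaf_nt.ShiftedPolynomials.result f hf a c ha hc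
  refine ⟨?_, fun hodd hc1 T N => ?_⟩
  · obtain ⟨T₀, h1⟩ := h1
    refine ⟨T₀, fun T hT0 N => ?_⟩
    refine few_of _ ⟨m, r, f, a, c, T, N, false⟩ (fun d hd => ?_) (hT β hβ hβE _)
      (fun U => bound_of _ U (h1 T hT0 N U))
    unfold bad
    rw [if_neg (by simp)]
    exact ⟨fun h => ⟨hd, h⟩, fun h => h.2⟩
  · refine few_of _ ⟨m, r, f, a, c, T, N, true⟩ (fun d hd => ?_) (hT β hβ hβE _)
      (fun U => bound_of _ U (h2 hodd hc1 T N U))
    unfold bad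
    rw [if_pos (by simp)]
    exact ⟨fun h => ⟨hd, h⟩, fun h => h.2⟩

end Pool.Agent.Results.MP_12adaf_nt.ShiftsByRealMultiples
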