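import Pool.Agent.Q138.PS.XI
import Pool.Agent.Results.MP_12adaf_nt.ShiftsByRealMultiples

/-!
# Weak approximation for all of the varieties `yᵢ² - aᵢ zᵢ² = cᵢ (f(t₁, ..., t_m) + k)` with `k` close to `± c n^j α^n`

For almost every real number `α > 1` the following holds, for all integral polynomials `f` of degree at least two in any number
`m` of variables and all nonzero integers `aᵢ`, `cᵢ`, `i < r`. The varieties `V_k : yᵢ² - aᵢ zᵢ² = cᵢ (f(t) + k) ≠ 0` are smooth
and geometrically rational of dimension `m + r`. For all algebraic numbers `c > 0`, all integers `j`, all real `D`, `κ`, all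
large `n` and ALL integers `k` with `| |k| - c n^j α^n| ≤ D n^κ` weak approximation at the finite places holds for `V_k`, to a
fixed precision at the primes of a finite set which contains the bad ones, under a condition at the real place; and without any
condition if the degree of `f` is odd and all `cᵢ = 1`.
-/

set_option autoImplicit false

namespace Pool.Agent.Results.MP_12adaf_nt.ShiftsNearPowers

open Finset Filter Topology MeasureTheory
open Pool.Agent.Q138.PS
open Pool.Agent.Results.MP_12adaf_nt.ShiftsByRealMultiples (WA RealCond Idx bad countable_idx bound_of)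

/-- the exceptional sets of ShiftsByRealMultiples, where they are small -/
def small (i : Idx) (k : ℤ) : Prop :=
  bad i k ∧ ∀ U : ℕ, ∃ C : ℝ, ∀ Y : ℕ, 3 ≤ Y → ({d : ℤ | d.natAbs ≤ Y ∧ bad i d}.ncard : ℝ) ≤ C * Y * (Real.log Y) ^ (-(U : ℝ))

/-- **Theorem.** For almost every real `α > 1`: for all `m`, `r`, all `f ∈ ℤ[t_1, …, t_m]` of degree at least `2` and all nonzero
integers `a_i`, `c_i`, `i < r`: there is a finite set `T₀` of primes such that for all finite `T ⊇ T₀` and all `N` the
following holds for all `b > 0` algebraic, all integers `j`, all real `D`, `κ`, all large `n` and ALL integers `k ≠ 0` with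
`| |k| - b n^j α^n| ≤ D n^κ`: if `RealCond` holds then weak approximation of level `N` at the primes of `T` holds for `V_k`. If
the degree of `f` is odd and all `c_i = 1`, then this is so for every finite `T` and without condition. -/
theorem result : ∀ᵐ α : ℝ, 1 < α →
    ∀ (m r : ℕ) (f : MvPolynomial (Fin m) ℤ), 2 ≤ f.totalDegree → ∀ a c : Fin r → ℤ, (∀ i, a i ≠ 0) → (∀ i, c i ≠ 0) →
      (∃ T₀ : Finset Nat.Primes, ∀ T : Finset Nat.Primes, T₀ ⊆ T → ∀ N : ℕ,
        NearAll α (fun k => RealCond f a c k → WA f a c T N k)) ∧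
      (Odd f.totalDegree → (∀ i, c i = 1) → ∀ (T : Finset Nat.Primes) (N : ℕ), NearAll α (WA f a c T N)) := by
  classical
  have := countable_idx
  have h0 := pow_ae_int small (fun i U => by
    by_cases hi : ∀ U : ℕ, ∃ C : ℝ, ∀ Y : ℕ, 3 ≤ Y → ({d : ℤ | d.natAbs ≤ Y ∧ bad i d}.ncard : ℝ) ≤
        C * Y * (Real.log Y) ^ (-(U : ℝ))
    · obtain ⟨C, hC⟩ := hi U
      refine ⟨C, fun Y hY => le_trans (le_of_eq ?_) (hC Y hY)⟩
      congr 2
      ext d
      exact ⟨fun h => ⟨h.1, h.2.1⟩, fun h => ⟨h.1, h.2, hi⟩⟩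
    · refine ⟨0, fun Y _ => ?_⟩
      have : {d : ℤ | d.natAbs ≤ Y ∧ small i d} = ∅ := by
        ext d
        simp only [Set.mem_ofPred_eq, Set.mem_empty_iff_false, iff_false]
        exact fun h => hi h.2.2
      rw [this]
      simp)
  filter_upwards [h0] with α h1 hα m r f hf a c ha hc
  obtain ⟨g1, g2⟩ := MP_12adaf_nt.ShiftedPolynomials.result f hf a c ha hc
  refine ⟨?_, fun hodd hc1 T N => ?_⟩
  · obtain ⟨T₀, g1⟩ := g1
    refine ⟨T₀, fun T hT0 N b hb hba j D κ => ?_⟩
    filter_upwards [h1 hα ⟨m, r, f, a, c, T, N, false⟩ b hb hba j D κ] with n hn k hk hkn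
    by_contra hcon
    have e : ∀ d : ℤ, bad ⟨m, r, f, a, c, T, N, false⟩ d ↔ (d ≠ 0 ∧ ¬ (RealCond f a c d → WA f a c T N d)) := by
      intro d
      unfold bad
      rw [if_neg (by simp)]
    refine hn k hk hkn ⟨(e k).2 ⟨hk, hcon⟩, fun U => ?_⟩
    obtain ⟨C, hC⟩ := bound_of _ U (g1 T hT0 N U)
    refine ⟨C, fun Y hY => le_trans (le_of_eq ?_) (hC Y hY)⟩
    congr 2
  · intro b hb hba j D κ
    filter_upwards [h1 hα ⟨m, r, f, a, c, T, N, true⟩ b hb hba j D κ] with n hn k hk hkn
    by_contra hcon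
    have e : ∀ d : ℤ, bad ⟨m, r, f, a, c, T, N, true⟩ d ↔ (d ≠ 0 ∧ ¬ WA f a c T N d) := by
      intro d
      unfold bad
      rw [if_pos (by simp)]
    refine hn k hk hkn ⟨(e k).2 ⟨hk, hcon⟩, fun U => ?_⟩
    obtain ⟨C, hC⟩ := bound_of _ U (g2 hodd hc1 T N U)
    refine ⟨C, fun Y hY => le_trans (le_of_eq ?_) (hC Y hY)⟩
    congr 2

end Pool.Agent.Results.MP_12adaf_nt.ShiftsNearPowers
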