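import Pool.Agent.TH204.HP.H14
import Pool.Agent.Q117.LP.E

/-!
# Weak approximation for `yᵢ² - aᵢ zᵢ² = cᵢ (f(t) + k)`, `±k` any integer of short intervals with many primes

Let `f` be an integral polynomial of degree at least `2` in any number of variables, `aᵢ`, `cᵢ` nonzero integers. It is known
(starting file `ShiftedPolynomials`) that for all but `X / (log X) ^ U` of the integers `|k| ≤ X` the variety
`V_k : yᵢ² - aᵢ zᵢ² = cᵢ (f(t₁, ..., t_m) + k) ≠ 0` satisfies weak approximation at the finite places, to a fixed precision.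
Here: there are intervals `[n, n + D]` of bounded length with `M` primes (`D` depends on `M` only) such that this holds for ALL
integers `k` with `|k|` in the interval, in particular for both signs of all the primes in it. There are at least
`X / (log X) ^ B` such `n` up to `X`, where `B` depends on `M` only, and there is one sequence of intervals, with more and
more primes, such that for all `f`, `a`, `c`, all primes and all precisions this holds for almost all of the intervals.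

Method: the Maynard-Tao theorem with at least `X / (log X) ^ B` values (`Pool/Agent/Q117/LP`), so that sets with at most
`X / (log X) ^ U` elements, for all `U`, can be avoided.
-/

set_option autoImplicit false

namespace Pool.Agent.Results.MP_12adaf_nt.StringsOfPrimes

open Finset MvPolynomial Filter

instance (p : Nat.Primes) : Fact (p : ℕ).Prime := ⟨p.2⟩

variable {m r : ℕ}

/-- the point `(t, y, z)` with coordinates in the field `F` lies on `V_k` -/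
def OnV (f : MvPolynomial (Fin m) ℤ) (a c : Fin r → ℤ) (k : ℤ) {F : Type} [Field F] (t : Fin m → F) (y z : Fin r → F) : Prop :=
  aeval t f + (k : F) ≠ 0 ∧ ∀ i, y i ^ 2 - (a i : F) * z i ^ 2 = (c i : F) * (aeval t f + (k : F))

/-- weak approximation of level `N` at the primes of `T`: for all families of `p`-adic points `(t, y, z)` of `V_k`, `p` in `T`,
with coordinates of absolute value at most `p ^ N` and `|f(t) + k| ≥ p ^ (-N)` there is a rational point of `V_k` whose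
coordinates are at the distance at most `p ^ (-N)` from those of the given point, for all `p` in `T`. For `T = ∅` this says
that `V_k` has a rational point. -/
def WA (f : MvPolynomial (Fin m) ℤ) (a c : Fin r → ℤ) (T : Finset Nat.Primes) (N : ℕ) (k : ℤ) : Prop :=
  ∀ (t : (p : Nat.Primes) → Fin m → ℚ_[(p : ℕ)]) (y z : (p : Nat.Primes) → Fin r → ℚ_[(p : ℕ)]),
    (∀ p ∈ T, OnV f a c k (t p) (y p) (z p) ∧ (∀ j, ‖t p j‖ ≤ ((p : ℕ) : ℝ) ^ N) ∧ (∀ i, ‖y p i‖ ≤ ((p : ℕ) : ℝ) ^ N) ∧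
      (∀ i, ‖z p i‖ ≤ ((p : ℕ) : ℝ) ^ N) ∧ (((p : ℕ) : ℝ) ^ N)⁻¹ ≤ ‖aeval (t p) f + (k : ℚ_[(p : ℕ)])‖) →
    ∃ (s : Fin m → ℚ) (Y Z : Fin r → ℚ), OnV f a c k s Y Z ∧
      ∀ p ∈ T, (∀ j, ‖(s j : ℚ_[(p : ℕ)]) - t p j‖ ≤ (((p : ℕ) : ℝ) ^ N)⁻¹) ∧
      ∀ i, ‖(Y i : ℚ_[(p : ℕ)]) - y p i‖ ≤ (((p : ℕ) : ℝ) ^ N)⁻¹ ∧ ‖(Z i : ℚ_[(p : ℕ)]) - z p i‖ ≤ (((p : ℕ) : ℝ) ^ N)⁻¹

/-- the condition at the real place: there is a sign `s` such that `s cᵢ > 0` whenever `aᵢ < 0` and such that `s k > 0` or the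
leading form of `f` takes a value of the sign `s` at an integral vector -/
def RealCond (f : MvPolynomial (Fin m) ℤ) (a c : Fin r → ℤ) (k : ℤ) : Prop :=
  ∃ s : ℤ, (s = 1 ∨ s = -1) ∧ (∀ i, a i < 0 → 0 < s * c i) ∧
    (0 < s * k ∨ ∃ v : Fin m → ℤ, 0 < s * eval v (homogeneousComponent f.totalDegree f))

/-- `V_k` satisfies weak approximation of level `N` at the primes of `T` if the real condition holds or if the degree of `f` is
odd and all `cᵢ` are `1` -/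
def Good (f : MvPolynomial (Fin m) ℤ) (a c : Fin r → ℤ) (T : Finset Nat.Primes) (N : ℕ) (k : ℤ) : Prop :=
  (RealCond f a c k ∨ (Odd f.totalDegree ∧ ∀ i, c i = 1)) → WA f a c T N k

/-- the data of a family and of an approximation problem -/
abbrev Dat : Type := (mr : ℕ × ℕ) × (MvPolynomial (Fin mr.1) ℤ) × (Fin mr.2 → ℤ) × (Fin mr.2 → ℤ) × Finset Nat.Primes × ℕ

theorem countable_dat : Countable Dat := by
  have h : ∀ mr : ℕ × ℕ, Countable
      ((MvPolynomial (Fin mr.1) ℤ) × (Fin mr.2 → ℤ) × (Fin mr.2 → ℤ) × Finset Nat.Primes × ℕ) := by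
    intro mr
    have : Countable (MvPolynomial (Fin mr.1) ℤ) := by
      rw [← Cardinal.mk_le_aleph0_iff]
      refine MvPolynomial.cardinalMk_le_max.trans ?_
      simp
    infer_instance
  infer_instance

open Classical in
/-- few exceptions (starting file `ShiftedPolynomials`) -/
theorem few (f : MvPolynomial (Fin m) ℤ) (hf : 2 ≤ f.totalDegree) (a c : Fin r → ℤ) (ha : ∀ i, a i ≠ 0)
    (hc : ∀ i, c i ≠ 0) : ∃ T₀ : Finset Nat.Primes, ∀ T : Finset Nat.Primes,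
      (T₀ ⊆ T ∨ (Odd f.totalDegree ∧ ∀ i, c i = 1)) → ∀ N : ℕ,
      Pool.Agent.Q117.LP.Thin (fun n : ℕ => ¬ Good f a c T N n ∨ ¬ Good f a c T N (-(n : ℤ))) := by
  have h1 := Pool.Agent.TH204.HP.quantM f hf a c ha hc
  simp only [Pool.Agent.TH204.HP.RC, Pool.Agent.TH204.HP.lead_eq] at h1
  obtain ⟨T₀, h1⟩ := h1
  refine ⟨T₀, fun T hT N => ?_⟩
  refine Pool.Agent.Q117.LP.thin_int (fun k => ¬ Good f a c T N k) fun U => ?_
  by_cases ho : Odd f.totalDegree ∧ ∀ i, c i = 1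
  · obtain ⟨ho, hc1⟩ := ho
    have e : c = fun _ => 1 := funext hc1
    have h2 := Pool.Agent.TH204.HP.oddM f hf ho a ha T N U
    rw [← e] at h2
    obtain ⟨X₀, hX₀⟩ : ∃ X₀ : ℕ, ∀ X : ℕ, X₀ ≤ X →
      (#{k ∈ Icc (-(X : ℤ)) X | ¬ WA f a c T N k} : ℝ) ≤ X / Real.log X ^ U := h2
    refine ⟨X₀, fun X hX => ⟨_, fun k hk hb => ?_, hX₀ X hX⟩⟩
    rw [mem_filter]
    exact ⟨hk, fun hw => hb fun _ => hw⟩
  · obtain ⟨X₀, hX₀⟩ : ∃ X₀ : ℕ, ∀ X : ℕ, X₀ ≤ X →
      (#{k ∈ Icc (-(X : ℤ)) X | ¬ (RealCond f a c k → WA f a c T N k)} : ℝ) ≤ X / Real.log X ^ U :=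
        h1 T (hT.resolve_right ho) N U
    refine ⟨X₀, fun X hX => ⟨_, fun k hk hb => ?_, hX₀ X hX⟩⟩
    rw [mem_filter]
    refine ⟨hk, fun hw => hb fun h => ?_⟩
    rcases h with h | h
    · exact hw h
    · exact absurd h ho

open Classical in
/-- **Theorem.** -/
theorem result : ∃ D B : ℕ → ℕ,
    (∀ (m r : ℕ) (f : MvPolynomial (Fin m) ℤ), 2 ≤ f.totalDegree → ∀ a c : Fin r → ℤ, (∀ i, a i ≠ 0) → (∀ i, c i ≠ 0) →
      ∃ T₀ : Finset Nat.Primes, ∀ T : Finset Nat.Primes, (T₀ ⊆ T ∨ (Odd f.totalDegree ∧ ∀ i, c i = 1)) →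
        ∀ N M : ℕ, ∀ᶠ X : ℕ in atTop,
        (X : ℝ) / Real.log X ^ (B M) ≤ ({n : ℕ | n ∈ Set.Icc 1 X ∧ M ≤ ((Icc n (n + D M)).filter Nat.Prime).card ∧
          ∀ k : ℤ, (n : ℤ) ≤ |k| → |k| ≤ n + D M → Good f a c T N k}.ncard : ℝ)) ∧
    ∃ n : ℕ → ℕ, (∀ M, M ≤ n M ∧ M ≤ ((Icc (n M) (n M + D M)).filter Nat.Prime).card) ∧
      ∀ (m r : ℕ) (f : MvPolynomial (Fin m) ℤ), 2 ≤ f.totalDegree → ∀ a c : Fin r → ℤ, (∀ i, a i ≠ 0) → (∀ i, c i ≠ 0) →
        ∃ T₀ : Finset Nat.Primes, ∀ T : Finset Nat.Primes, (T₀ ⊆ T ∨ (Odd f.totalDegree ∧ ∀ i, c i = 1)) →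
          ∀ N : ℕ, ∀ᶠ M : ℕ in atTop,
          ∀ k : ℤ, (n M : ℤ) ≤ |k| → |k| ≤ n M + D M → Good f a c T N k := by
  obtain ⟨D, B, h1, h2⟩ := Pool.Agent.Q117.LP.main
  refine ⟨D, B, fun m r f hf a c ha hc => ?_, ?_⟩
  · obtain ⟨T₀, hT₀⟩ := few f hf a c ha hc
    refine ⟨T₀, fun T hT N M => ?_⟩
    filter_upwards [h1 _ (hT₀ T hT N) M] with X hX
    refine hX.trans ?_
    rw [Nat.cast_le]
    refine Set.ncard_le_ncard ?_ ((Set.finite_Icc 1 X).subset fun n hn => hn.1)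
    rintro n ⟨g1, g2, g3⟩
    refine ⟨g1, g2, fun k hk1 hk2 => ?_⟩
    rw [Int.abs_eq_natAbs] at hk1 hk2
    have g4 := g3 k.natAbs (mem_Icc.2 ⟨by omega, by omega⟩)
    push Not at g4
    rcases Int.natAbs_eq k with h | h
    · rw [h]
      exact g4.1
    · rw [h]
      exact g4.2
  · have := countable_dat
    obtain ⟨n, hn1, hn2, hn3⟩ := h2 Dat countable_dat fun d k =>
      ¬ Good d.2.1 d.2.2.1 d.2.2.2.1 d.2.2.2.2.1 d.2.2.2.2.2 k ∨ ¬ Good d.2.1 d.2.2.1 d.2.2.2.1 d.2.2.2.2.1 d.2.2.2.2.2 (-(k : ℤ))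
    refine ⟨n, fun M => ⟨hn1 M, hn2 M⟩, fun m r f hf a c ha hc => ?_⟩
    obtain ⟨T₀, hT₀⟩ := few f hf a c ha hc
    refine ⟨T₀, fun T hT N => ?_⟩
    filter_upwards [hn3 ⟨(m, r), f, a, c, T, N⟩ (hT₀ T hT N)] with M g3 k hk1 hk2
    rw [Int.abs_eq_natAbs] at hk1 hk2
    have g4 := g3 k.natAbs (mem_Icc.2 ⟨by omega, by omega⟩)
    push Not at g4
    rcases Int.natAbs_eq k with h | h
    · rw [h]
      exact g4.1
    · rw [h]
      exact g4.2

end Pool.Agent.Results.MP_12adaf_nt.StringsOfPrimes
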